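import Mathlib

/-!
# The balanced pair substitution of a Pisot substitution and its reversal: a counterexample
-/

namespace Pool.Agent.Results.MP_7b40b5_an.ReversalCounterexample

open Polynomial

section Defs

variable {k : ℕ}

/-- The image of a word under a substitution. -/
def img (σ : Fin k → List (Fin k)) (w : List (Fin k)) : List (Fin k) := w.flatMap σ

/-- The reversal `σ̂`. -/
def rev (σ : Fin k → List (Fin k)) : Fin k → List (Fin k) := fun i => (σ i).reverse

/-- The incidence matrix: `m_{ij}` is the number of occurrences of `i` in `σ(j)`. -/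
def inc (σ : Fin k → List (Fin k)) : Matrix (Fin k) (Fin k) ℤ := fun i j => ((σ j).count i : ℤ)

/-- `p(x) = det(xI - M_σ)`. -/
noncomputable def pPoly (σ : Fin k → List (Fin k)) : ℤ[X] := (inc σ).charpoly

/-- `q(x) = x^k p(1/x)`. -/
noncomputable def qPoly (σ : Fin k → List (Fin k)) : ℤ[X] := (pPoly σ).reflect k

/-- Unimodular irreducible Pisot substitutions: `|det M_σ| = 1`, `p` is irreducible over `ℚ`, and
the dominant root `λ` of `p` is a Pisot number. -/
def IsUnimodularIrreduciblePisot (σ : Fin k → List (Fin k)) : Prop :=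
  (∀ i, σ i ≠ []) ∧ |(inc σ).det| = 1 ∧ Irreducible ((pPoly σ).map (Int.castRingHom ℚ)) ∧
    ∃ l : ℝ, 1 < l ∧ aeval (l : ℂ) (pPoly σ) = 0 ∧
      ∀ z : ℂ, aeval z (pPoly σ) = 0 → z ≠ l → ‖z‖ < 1

/-- The prefix of length `n` of an infinite word. -/
def pre (u : ℕ → Fin k) (n : ℕ) : List (Fin k) := (List.range n).map u

/-- `u` is a one-sided fixed point of `σ` (for `σ` without empty images): the images of the
prefixes of `u` are prefixes of `u`. -/
def IsFixedPoint (σ : Fin k → List (Fin k)) (u : ℕ → Fin k) : Prop :=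
  ∀ n, img σ (pre u n) = pre u (img σ (pre u n)).length

/-- Balanced pairs: the two words have the same number of occurrences of each letter. -/
def Balanced (P : List (Fin k) × List (Fin k)) : Prop := ∀ i, P.1.count i = P.2.count i

instance (P : List (Fin k) × List (Fin k)) : Decidable (Balanced P) :=
  inferInstanceAs (Decidable (∀ i, P.1.count i = P.2.count i))

/-- `P` is the pair of prefixes of `u` and `v` of the least common length `n ≥ 1` which is
balanced. -/
def IsInitialPair (u v : ℕ → Fin k) (P : List (Fin k) × List (Fin k)) : Prop :=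
  ∃ n, 1 ≤ n ∧ P = (pre u n, pre v n) ∧ Balanced P ∧
    ∀ m, 1 ≤ m → m < n → ¬ Balanced (pre u m, pre v m)

/-- The splitting of a pair of words: one reads the two words in parallel, and cuts whenever the
words read since the last cut (including `A`, `B`) form a balanced pair. -/
def splitFrom (A B : List (Fin k)) :
    List (Fin k) → List (Fin k) → List (List (Fin k) × List (Fin k))
  | a :: U, b :: V =>
    if Balanced (A ++ [a], B ++ [b]) then (A ++ [a], B ++ [b]) :: splitFrom [] [] U V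
    else splitFrom (A ++ [a]) (B ++ [b]) U V
  | _, _ => []

/-- The splitting of `(σ(U), σ̂(V))` into minimal balanced pairs. -/
def step (σ : Fin k → List (Fin k)) (P : List (Fin k) × List (Fin k)) :
    List (List (Fin k) × List (Fin k)) :=
  splitFrom [] [] (img σ P.1) (img (rev σ) P.2)

/-- The set `𝓑` of the balanced pairs reachable from `P₀`. -/
inductive Reach (σ : Fin k → List (Fin k)) (P₀ : List (Fin k) × List (Fin k)) :
    List (Fin k) × List (Fin k) → Prop
  | base : Reach σ P₀ P₀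
  | next {P Q : List (Fin k) × List (Fin k)} : Reach σ P₀ P → Q ∈ step σ P → Reach σ P₀ Q

/-- The set `𝓑`. -/
def BSet (σ : Fin k → List (Fin k)) (P₀ : List (Fin k) × List (Fin k)) :
    Set (List (Fin k) × List (Fin k)) := {P | Reach σ P₀ P}

/-- The incidence matrix `M_Σ` of the balanced pair substitution. -/
def bigMatrix (σ : Fin k → List (Fin k)) (P₀ : List (Fin k) × List (Fin k)) :
    Matrix (BSet σ P₀) (BSet σ P₀) ℤ := fun Q P => ((step σ P.1).count Q.1 : ℤ)

/-- `det(xI - M_Σ)`, when `𝓑` is finite. -/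
noncomputable def bigCharpoly (σ : Fin k → List (Fin k)) (P₀ : List (Fin k) × List (Fin k))
    (h : (BSet σ P₀).Finite) : ℤ[X] :=
  letI := h.fintype
  (bigMatrix σ P₀).charpoly

end Defs

/-! ### Fixed points -/

section Fixed

variable {k : ℕ} (σ : Fin k → List (Fin k))

lemma img_append (u v : List (Fin k)) : img σ (u ++ v) = img σ u ++ img σ v :=
  List.flatMap_append

lemma img_prefix {u v : List (Fin k)} (h : u <+: v) : img σ u <+: img σ v := by
  obtain ⟨t, rfl⟩ := h
  rw [img_append]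
  exact List.prefix_append _ _

lemma img_ne_nil (hσ : ∀ i, σ i ≠ []) {u : List (Fin k)} (h : u ≠ []) : img σ u ≠ [] := by
  obtain ⟨a, t, rfl⟩ := List.exists_cons_of_ne_nil h
  intro hcon
  have h1 : σ a ++ img σ t = [] := hcon
  exact hσ a (List.append_eq_nil_iff.1 h1).1

/-- The words `σ^n(b)`. -/
def wd (b : Fin k) (n : ℕ) : List (Fin k) := (img σ)^[n] [b]

lemma pre_length (u : ℕ → Fin k) (n : ℕ) : (pre u n).length = n := by simp [pre]

lemma exists_fixedPoint (hσ : ∀ i, σ i ≠ []) {b : Fin k} {t : List (Fin k)} (ht : t ≠ [])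
    (hb : σ b = b :: t) : ∃ u : ℕ → Fin k, u 0 = b ∧ IsFixedPoint σ u := by
  have hstep : ∀ n, ∃ s, s ≠ [] ∧ wd σ b (n + 1) = wd σ b n ++ s := by
    intro n
    induction n with
    | zero =>
      refine ⟨t, ht, ?_⟩
      show img σ [b] = [b] ++ t
      simp [img, hb]
    | succ n ih =>
      obtain ⟨s, hs, h⟩ := ih
      refine ⟨img σ s, img_ne_nil σ hσ hs, ?_⟩
      have h1 : wd σ b (n + 1 + 1) = img σ (wd σ b (n + 1)) :=
        Function.iterate_succ_apply' _ _ _
      have h2 : wd σ b (n + 1) = img σ (wd σ b n) := Function.iterate_succ_apply' _ _ _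
      rw [h1, h, img_append, ← h, ← h2]
  have hpre : ∀ n m, n ≤ m → wd σ b n <+: wd σ b m := by
    intro n m h
    induction h with
    | refl => exact List.prefix_rfl
    | step _ ih =>
      obtain ⟨s, -, h⟩ := hstep _
      exact ih.trans (h ▸ List.prefix_append _ _)
  have hlen : ∀ n, n < (wd σ b n).length := by
    intro n
    induction n with
    | zero => exact Nat.one_pos
    | succ n ih =>
      obtain ⟨s, hs, h⟩ := hstep n
      rw [h, List.length_append]
      have := List.length_pos_of_ne_nil hs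
      omega
  let u : ℕ → Fin k := fun n => (wd σ b n)[n]'(hlen n)
  have hu : ∀ n m (h : m < (wd σ b n).length), u m = (wd σ b n)[m] := by
    intro n m h
    rcases le_total n m with hnm | hnm
    · obtain ⟨s, hs⟩ := hpre n m hnm
      simp only [u, ← hs]
      rw [List.getElem_append_left h]
    · obtain ⟨s, hs⟩ := hpre m n hnm
      simp only [u, ← hs]
      rw [List.getElem_append_left (hlen m)]
  have hprefix : ∀ w n, w <+: wd σ b n → w = pre u w.length := by
    rintro w n ⟨s, hs⟩
    apply List.ext_getElem (by rw [pre_length])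
    intro i h1 h2
    have h3 : i < (wd σ b n).length := by rw [← hs, List.length_append]; omega
    have h4 := hu n i h3
    simp only [pre, List.getElem_map, List.getElem_range]
    rw [h4]
    simp only [← hs]
    rw [List.getElem_append_left h1]
  refine ⟨u, rfl, fun n => ?_⟩
  have h1 : pre u n <+: wd σ b n := by
    have h2 := hprefix (wd σ b n) n List.prefix_rfl
    rw [h2]
    have h3 : n ≤ (wd σ b n).length := (hlen n).le
    obtain ⟨d, hd⟩ := Nat.exists_eq_add_of_le h3
    rw [hd, pre, pre, List.range_add, List.map_append]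
    exact List.prefix_append _ _
  have h2 := img_prefix σ h1
  have h3 : img σ (wd σ b n) = wd σ b (n + 1) := (Function.iterate_succ_apply' _ _ _).symm
  rw [h3] at h2
  exact hprefix _ _ h2

end Fixed

/-! ### The example -/

/-- `a ↦ b`, `b ↦ bacb`, `c ↦ ab` (with `a = 0`, `b = 1`, `c = 2`). -/
def σ₀ : Fin 3 → List (Fin 3) := ![[1], [1, 0, 2, 1], [0, 1]]

lemma inc_σ₀ : inc σ₀ = !![0, 1, 1; 1, 2, 1; 0, 1, 0] := by
  ext i j
  fin_cases i <;> fin_cases j <;> rfl

lemma charpoly_explicit (M : Matrix (Fin 3) (Fin 3) ℤ) :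
    M.charpoly = X ^ 3 - C (M 0 0 + M 1 1 + M 2 2) * X ^ 2 +
      C (M 0 0 * M 1 1 + M 0 0 * M 2 2 + M 1 1 * M 2 2 - M 0 1 * M 1 0 - M 0 2 * M 2 0
        - M 1 2 * M 2 1) * X - C M.det := by
  rw [Matrix.charpoly, Matrix.det_fin_three, Matrix.det_fin_three]
  simp only [Matrix.charmatrix_apply_eq, Matrix.charmatrix_apply_ne, ne_eq, Fin.reduceEq,
    not_false_eq_true, C_add, C_sub, C_mul]
  ring

lemma pPoly_σ₀ : pPoly σ₀ = X ^ 3 - 2 * X ^ 2 - 2 * X - 1 := by
  rw [pPoly, charpoly_explicit, inc_σ₀]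
  have h : (!![0, 1, 1; 1, 2, 1; 0, 1, 0] : Matrix (Fin 3) (Fin 3) ℤ).det = 1 := by
    rw [Matrix.det_fin_three]; rfl
  rw [h]
  simp
  ring

lemma pPoly_σ₀' : pPoly σ₀ = C 1 * X ^ 3 + C (-2) * X ^ 2 + C (-2) * X ^ 1 + C (-1) * X ^ 0 := by
  rw [pPoly_σ₀]
  simp only [C_neg, C_1, pow_one, pow_zero, mul_one, one_mul]
  have : (C 2 : ℤ[X]) = 2 := rfl
  rw [this]
  ring

lemma qPoly_σ₀ : qPoly σ₀ = 1 - 2 * X - 2 * X ^ 2 - X ^ 3 := by
  rw [qPoly, pPoly_σ₀', reflect_add, reflect_add, reflect_add, reflect_C_mul_X_pow,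
    reflect_C_mul_X_pow, reflect_C_mul_X_pow, reflect_C_mul_X_pow]
  have h3 : revAt 3 3 = 0 := revAt_le le_rfl
  have h2 : revAt 3 2 = 1 := revAt_le (by norm_num)
  have h1 : revAt 3 1 = 2 := revAt_le (by norm_num)
  have h0 : revAt 3 0 = 3 := revAt_le (by norm_num)
  rw [h3, h2, h1, h0]
  simp only [C_neg, C_1, pow_one, pow_zero, mul_one]
  have : (C 2 : ℤ[X]) = 2 := rfl
  rw [this]
  ring

lemma irreducible_p : Irreducible ((pPoly σ₀).map (Int.castRingHom ℚ)) := by
  have hp : (pPoly σ₀).map (Int.castRingHom ℚ) = X ^ 3 - 2 * X ^ 2 - 2 * X - 1 := by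
    rw [pPoly_σ₀]
    simp
  have hp' : (X ^ 3 - 2 * X ^ 2 - 2 * X - 1 : ℚ[X]) =
      C 1 * X ^ 3 + C (-2) * X ^ 2 + C (-2) * X + C (-1) := by
    simp only [C_neg, C_1, one_mul]
    have : (C 2 : ℚ[X]) = 2 := rfl
    rw [this]
    ring
  have hdeg : (X ^ 3 - 2 * X ^ 2 - 2 * X - 1 : ℚ[X]).natDegree = 3 := by
    rw [hp']
    exact natDegree_cubic one_ne_zero
  rw [hp]
  apply Polynomial.irreducible_of_degree_le_three_of_not_isRoot
  · rw [hdeg]; simp
  · intro x hx
    have hx' : x ^ 3 - 2 * x ^ 2 - 2 * x - 1 = 0 := by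
      have := hx.eq_zero
      simpa using this
    -- `x` is an integer
    have hmon : (pPoly σ₀).Monic := Matrix.charpoly_monic _
    have hroot : aeval x (pPoly σ₀) = 0 := by
      rw [pPoly_σ₀]
      simp only [map_sub, map_mul, map_pow, aeval_X, map_one, map_ofNat]
      exact hx'
    obtain ⟨n, hn⟩ := isInteger_of_is_root_of_monic hmon hroot
    have hn' : (n : ℚ) = x := hn
    rw [← hn'] at hx'
    have h1 : n ^ 3 - 2 * n ^ 2 - 2 * n - 1 = 0 := by exact_mod_cast hx'
    have h2 : n * (n ^ 2 - 2 * n - 2) = 1 := by linarith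
    rcases Int.eq_one_or_neg_one_of_mul_eq_one h2 with h | h
    · rw [h] at h1; norm_num at h1
    · rw [h] at h1; norm_num at h1

lemma pisot_p : ∃ l : ℝ, 1 < l ∧ aeval (l : ℂ) (pPoly σ₀) = 0 ∧
      ∀ z : ℂ, aeval z (pPoly σ₀) = 0 → z ≠ l → ‖z‖ < 1 := by
  have hcont : ContinuousOn (fun x : ℝ => x ^ 3 - 2 * x ^ 2 - 2 * x - 1) (Set.Icc (28 / 10) 3) := by
    fun_prop
  obtain ⟨l, ⟨hl1, hl2⟩, hl⟩ := intermediate_value_Icc (by norm_num) hcont
    (show (0 : ℝ) ∈ Set.Icc _ _ by constructor <;> norm_num)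
  simp only at hl
  have heval : ∀ z : ℂ, aeval z (pPoly σ₀) = z ^ 3 - 2 * z ^ 2 - 2 * z - 1 := by
    intro z
    rw [pPoly_σ₀]
    simp only [map_sub, map_mul, map_pow, aeval_X, map_one, map_ofNat]
  refine ⟨l, by linarith, ?_, ?_⟩
  · rw [heval]
    exact_mod_cast hl
  · intro z hz hne
    rw [heval] at hz
    set c : ℝ := l ^ 2 - 2 * l - 2 with hc
    have hlc : l * c = 1 := by rw [hc]; linarith
    have hc1 : 1 / 3 ≤ c := by
      by_contra hcon
      push Not at hcon
      nlinarith
    have hc2 : c < 1 := by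
      by_contra hcon
      push Not at hcon
      nlinarith
    have hfac : (z - l) * (z ^ 2 + (l - 2) * z + c) = 0 := by
      have h1 : ((l : ℂ) * c) = 1 := by exact_mod_cast hlc
      have h2 : (c : ℂ) = (l : ℂ) ^ 2 - 2 * l - 2 := by rw [hc]; push_cast; ring
      have h3 : (z - l) * (z ^ 2 + (l - 2) * z + c) =
          (z ^ 3 - 2 * z ^ 2 - 2 * z - 1) + z * (c - (l ^ 2 - 2 * l - 2)) - (l * c - 1) := by ring
      rw [h3, hz, h1, h2]
      ring
    rcases mul_eq_zero.1 hfac with h | h
    · exact absurd (sub_eq_zero.1 h) hne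
    · have hre := congrArg Complex.re h
      have him := congrArg Complex.im h
      simp only [pow_two, Complex.add_re, Complex.mul_re, Complex.sub_re, Complex.ofReal_re,
        Complex.re_ofNat, Complex.sub_im, Complex.ofReal_im, Complex.im_ofNat, Complex.zero_re,
        Complex.add_im, Complex.mul_im, Complex.zero_im, sub_zero, zero_mul, add_zero] at hre him
      have hfac2 : z.im * (2 * z.re + (l - 2)) = 0 := by linarith
      have hnorm : ‖z‖ ^ 2 = z.re * z.re + z.im * z.im := by
        rw [Complex.sq_norm, Complex.normSq_apply]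
      have hkey : ‖z‖ ^ 2 < 1 := by
        rw [hnorm]
        rcases mul_eq_zero.1 hfac2 with h0 | h0
        · exfalso
          rw [h0] at hre
          nlinarith [sq_nonneg (z.re + (l - 2) / 2)]
        · have h5 : z.re = -(l - 2) / 2 := by linarith
          nlinarith
      exact (sq_lt_one_iff₀ (norm_nonneg z)).1 hkey

/-- The three balanced pairs. -/
def prs : Fin 3 → List (Fin 3) × List (Fin 3) := ![([1], [1]), ([0, 2], [2, 0]), ([0], [0])]

lemma step_0 : step σ₀ ([1], [1]) = [([1], [1]), ([0, 2], [2, 0]), ([1], [1])] := by decide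
lemma step_1 : step σ₀ ([0, 2], [2, 0]) = [([1], [1]), ([0], [0]), ([1], [1])] := by decide
lemma step_2 : step σ₀ ([0], [0]) = [([1], [1])] := by decide

lemma reach_iff (P : List (Fin 3) × List (Fin 3)) : Reach σ₀ ([1], [1]) P ↔ ∃ i, prs i = P := by
  constructor
  · intro h
    induction h with
    | base => exact ⟨0, rfl⟩
    | next _ hQ ih =>
      obtain ⟨i, rfl⟩ := ih
      fin_cases i
      · change _ ∈ step σ₀ ([1], [1]) at hQ
        rw [step_0] at hQ
        simp only [List.mem_cons, List.not_mem_nil, or_false] at hQ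
        rcases hQ with rfl | rfl | rfl
        · exact ⟨0, rfl⟩
        · exact ⟨1, rfl⟩
        · exact ⟨0, rfl⟩
      · change _ ∈ step σ₀ ([0, 2], [2, 0]) at hQ
        rw [step_1] at hQ
        simp only [List.mem_cons, List.not_mem_nil, or_false] at hQ
        rcases hQ with rfl | rfl | rfl
        · exact ⟨0, rfl⟩
        · exact ⟨2, rfl⟩
        · exact ⟨0, rfl⟩
      · change _ ∈ step σ₀ ([0], [0]) at hQ
        rw [step_2] at hQ
        simp only [List.mem_cons, List.not_mem_nil, or_false] at hQ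
        exact ⟨0, hQ.symm⟩
  · rintro ⟨i, rfl⟩
    have r0 : Reach σ₀ ([1], [1]) ([1], [1]) := Reach.base
    have r1 : Reach σ₀ ([1], [1]) ([0, 2], [2, 0]) := Reach.next r0 (by rw [step_0]; decide)
    have r2 : Reach σ₀ ([1], [1]) ([0], [0]) := Reach.next r1 (by rw [step_1]; decide)
    fin_cases i
    · exact r0
    · exact r1
    · exact r2

/-- The enumeration of `𝓑`. -/
noncomputable def enum : Fin 3 ≃ BSet σ₀ ([1], [1]) :=
  Equiv.ofBijective (fun i => ⟨prs i, (reach_iff _).2 ⟨i, rfl⟩⟩) (by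
    constructor
    · intro i j h
      have h1 : prs i = prs j := congrArg Subtype.val h
      revert h1
      revert i j
      decide
    · rintro ⟨P, hP⟩
      obtain ⟨i, hi⟩ := (reach_iff P).1 hP
      exact ⟨i, Subtype.ext hi⟩)

lemma bigCharpoly_eq (h : (BSet σ₀ ([1], [1])).Finite) :
    bigCharpoly σ₀ ([1], [1]) h = X ^ 3 - 2 * X ^ 2 - 2 * X - 1 := by
  unfold bigCharpoly
  letI := h.fintype
  rw [← Matrix.charpoly_reindex enum.symm]
  have hM : Matrix.reindex enum.symm enum.symm (bigMatrix σ₀ ([1], [1])) =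
      !![2, 2, 1; 1, 0, 0; 0, 1, 0] := by
    ext i j
    show ((step σ₀ (prs j)).count (prs i) : ℤ) = _
    fin_cases i <;> fin_cases j <;> decide
  rw [hM, charpoly_explicit]
  have hd : (!![2, 2, 1; 1, 0, 0; 0, 1, 0] : Matrix (Fin 3) (Fin 3) ℤ).det = 1 := by
    rw [Matrix.det_fin_three]; rfl
  rw [hd]
  simp
  ring

/-- There is a unimodular irreducible Pisot substitution `σ` on three letters, different from its
reversal, for which the balanced pair algorithm for `σ, σ̂` is defined and the set `𝓑` is finite,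
with `p ≠ ± q`, such that `q` does not divide `det(xI - M_Σ)` (over `ℚ`). -/
theorem result : ∃ (σ : Fin 3 → List (Fin 3)) (u v : ℕ → Fin 3)
    (P₀ : List (Fin 3) × List (Fin 3)) (h : (BSet σ P₀).Finite),
    IsUnimodularIrreduciblePisot σ ∧ rev σ ≠ σ ∧ IsFixedPoint σ u ∧ IsFixedPoint (rev σ) v ∧
    IsInitialPair u v P₀ ∧ pPoly σ ≠ qPoly σ ∧ pPoly σ ≠ -qPoly σ ∧
    ¬ (qPoly σ).map (Int.castRingHom ℚ) ∣ (bigCharpoly σ P₀ h).map (Int.castRingHom ℚ) := by
  obtain ⟨u, hu0, hu⟩ := exists_fixedPoint σ₀ (b := 1) (t := [0, 2, 1]) (by decide) (by decide) rfl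
  obtain ⟨v, hv0, hv⟩ := exists_fixedPoint (rev σ₀) (b := 1) (t := [2, 0, 1]) (by decide)
    (by decide) rfl
  have hfin : (BSet σ₀ ([1], [1])).Finite := by
    have : BSet σ₀ ([1], [1]) = Set.range prs := by
      ext P
      exact reach_iff P
    rw [this]
    exact Set.finite_range prs
  have hne1 : pPoly σ₀ ≠ qPoly σ₀ := by
    rw [pPoly_σ₀, qPoly_σ₀]
    intro h
    have := congrArg (eval 2) h
    simp at this
  have hne2 : pPoly σ₀ ≠ -qPoly σ₀ := by
    rw [pPoly_σ₀, qPoly_σ₀]
    intro h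
    have := congrArg (eval 2) h
    simp at this
  refine ⟨σ₀, u, v, ([1], [1]), hfin, ⟨by decide, ?_, irreducible_p, pisot_p⟩, by decide, hu, hv,
    ⟨1, le_rfl, ?_, by decide, fun m h1 h2 => by omega⟩, hne1, hne2, ?_⟩
  · rw [inc_σ₀, Matrix.det_fin_three]
    rfl
  · simp [pre, hu0, hv0]
  · rw [bigCharpoly_eq, ← pPoly_σ₀]
    intro hdvd
    have hmon : (-qPoly σ₀).Monic := by
      rw [qPoly_σ₀]
      have : -(1 - 2 * X - 2 * X ^ 2 - X ^ 3 : ℤ[X]) =
          C 1 * X ^ 3 + C 2 * X ^ 2 + C 2 * X + C (-1) := by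
        simp only [C_neg, C_1, one_mul]
        have : (C 2 : ℤ[X]) = 2 := rfl
        rw [this]
        ring
      rw [this, Monic, leadingCoeff_cubic one_ne_zero]
    have h1 : (-qPoly σ₀).map (Int.castRingHom ℚ) ∣ (pPoly σ₀).map (Int.castRingHom ℚ) := by
      rw [Polynomial.map_neg]
      exact (neg_dvd).2 hdvd
    rw [Polynomial.map_dvd_map _ (RingHom.injective_int _) hmon] at h1
    obtain ⟨r, hr⟩ := h1
    have h2 := congrArg (eval 2) hr
    rw [eval_mul, pPoly_σ₀, qPoly_σ₀] at h2
    simp at h2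
    omega

end Pool.Agent.Results.MP_7b40b5_an.ReversalCounterexample
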